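import Pool.Agent.H32.CH.Targets

/-!
Row WPA of ch_modules (MP_aaa807_co): windows on paths.
-/

set_option autoImplicit false

open Finset
open scoped Classical
open Pool.Agent.H32.CH

namespace Pool.Agent.H54.CH.WPA

/-- the window number j with offset o -/
def win (o j : ℕ) : Finset ℕ := (range 3).image (fun t => 4 * j + o + t)

theorem mem_win {o j x : ℕ} : x ∈ win o j ↔ 4 * j + o ≤ x ∧ x < 4 * j + o + 3 := by
  unfold win
  rw [mem_image]
  constructor
  · rintro ⟨t, ht, rfl⟩
    rw [mem_range] at ht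
    omega
  · rintro ⟨h1, h2⟩
    exact ⟨x - (4 * j + o), by rw [mem_range]; omega, by omega⟩

theorem card_win (o j : ℕ) : (win o j).card = 3 := by
  unfold win
  rw [card_image_of_injective _ (fun a b h => by simpa using h), card_range]

theorem core (n o : ℕ) (ho : 1 ≤ o) (ho2 : o ≤ 2) (hn : 6 ≤ n) (hmod : (n - o) % 4 ≠ 3) :
    ∃ (q : ℕ) (w : Fin q → Finset ℕ), CW n q w ∧
  (∀ i, ∀ x ∈ w i, 1 ≤ x ∧ x + 2 ≤ n) ∧
  ∀ r : Finset ℕ, r ⊆ range n → (∀ i, (r ∩ w i).card = 1) → ∃ s, s ⊆ r ∧ PG n s := by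
  refine ⟨(n - o) / 4, fun i => win o i.1, ⟨fun i => card_win o i.1, ?_, ?_⟩, ?_, ?_⟩
  · intro i x hx
    rw [mem_win] at hx
    have := i.2
    rw [mem_range]
    omega
  · intro i j hij
    rw [disjoint_left]
    intro x hx hy
    rw [mem_win] at hx hy
    apply hij
    apply Fin.ext
    omega
  · intro i x hx
    rw [mem_win] at hx
    have := i.2
    omega
  · intro r hr hw
    refine ⟨r.filter (fun x => ∃ i : Fin ((n - o) / 4), x ∈ win o i.1), filter_subset _ _,
      (filter_subset _ _).trans hr, ?_, ?_⟩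
    · intro x hx hx1
      rw [mem_filter] at hx hx1
      obtain ⟨hxr, i, hi⟩ := hx
      obtain ⟨hyr, j, hj⟩ := hx1
      have hij : i = j := by
        rw [mem_win] at hi hj
        apply Fin.ext
        omega
      subst hij
      obtain ⟨z, hz⟩ := card_eq_one.mp (hw i)
      have h1 : x ∈ r ∩ win o i.1 := mem_inter.mpr ⟨hxr, hi⟩
      have h2 : x + 1 ∈ r ∩ win o i.1 := mem_inter.mpr ⟨hyr, hj⟩
      rw [hz, mem_singleton] at h1 h2
      omega
    · intro a ha
      have hj : ∃ j : ℕ, a ≤ 4 * j + o ∧ 4 * j + o ≤ a + 3 := by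
        by_cases h : a ≤ o
        · exact ⟨0, by omega, by omega⟩
        · exact ⟨(a - o + 3) / 4, by omega, by omega⟩
      obtain ⟨j, hj1, hj2⟩ := hj
      have hjq : j < (n - o) / 4 := by omega
      obtain ⟨z, hz⟩ := card_eq_one.mp (hw ⟨j, hjq⟩)
      have hz1 : z ∈ r ∩ win o j := by
        have : z ∈ ({z} : Finset ℕ) := mem_singleton_self z
        rw [← hz] at this
        exact this
      rw [mem_inter] at hz1
      have hz2 := mem_win.mp hz1.2
      exact ⟨z, mem_filter.mpr ⟨hz1.1, ⟨j, hjq⟩, hz1.2⟩, by omega, by omega⟩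

theorem pf_WPA : T_WPA := by
  intro n hn
  by_cases h : n % 4 = 0
  · exact core n 2 (by norm_num) (by norm_num) hn (by omega)
  · exact core n 1 (by norm_num) (by norm_num) hn (by omega)

end Pool.Agent.H54.CH.WPA
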